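import Mathlib
import Pool.Agent.R241.AS6

/-!
# A nontrivial minimal system with the average shadowing property

We show that there is a minimal system with more than one point which has the average shadowing
property.

The system is a one-sided subshift. There are finite sets `W_j` of words of the lengths `l_j` and
`l_j + 1`. A word `u_j`, which is a concatenation of words of `W_j`, contains all words `w w'` with
`w, w' ∈ W_j`, and `W_{j+1}` consists of the words `u_j v` of the lengths `l_{j+1}` and
`l_{j+1} + 1` where `v` is a concatenation of words of `W_j`. The subshift consists of the sequences
all of whose words occur in concatenations of words of `W_j`, for all `j`. It is minimal since every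
short word occurs in `u_j`. A pseudo-orbit in average is shadowed by a sequence which is obtained
from the sequence of the first letters: first blocks of the length `l_k` are replaced by words of
`W_k` which agree with them except near the ends, and then the words `u_j` are written on the
blocks of length `l_{j+1}` for all `j ≥ k`; this changes the sequence on a set of small density.
-/

set_option autoImplicit false

open Set Pool.Agent.R241.AS

namespace Pool.Agent.Results.MP_883b72_an.MinimalWithASP

/-- There are a compact metric space `X` with more than one point and a continuous map `f : X → X`
which is minimal (every nonempty closed set `C` with `f(C) ⊆ C` is equal to `X`) and has the average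
shadowing property. -/
theorem result : ∃ (X : Type) (_ : MetricSpace X) (_ : CompactSpace X) (f : X → X),
    Nontrivial X ∧ Continuous f ∧
    (∀ C : Set X, IsClosed C → C.Nonempty → MapsTo f C C → C = univ) ∧ ASP f :=
  ⟨XM, inferInstance, inferInstance, TM, nontrivial_XM, continuous_sh, minimal_TM, asp_TM⟩

end Pool.Agent.Results.MP_883b72_an.MinimalWithASP
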